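import Mathlib
set_option autoImplicit false

namespace Pool.Agent.Helper63.DP

open Finset

section FR
variable {X Y X' Y' : Type*}

/-- `M` is a sum of `n` products of a function of `x` and a function of `y`. -/
def FR (M : X → Y → ℂ) (n : ℕ) : Prop :=
  ∃ (u : Fin n → X → ℂ) (v : Fin n → Y → ℂ), ∀ x y, M x y = ∑ i, u i x * v i y

theorem FR.congr {M M' : X → Y → ℂ} {n : ℕ} (h : FR M n) (e : ∀ x y, M' x y = M x y) : FR M' n := by
  obtain ⟨u, v, huv⟩ := h
  exact ⟨u, v, fun x y => by rw [e, huv]⟩

theorem FR.comp {M : X → Y → ℂ} {n : ℕ} (h : FR M n) (g : X' → X) (k : Y' → Y) :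
    FR (fun x y => M (g x) (k y)) n := by
  obtain ⟨u, v, huv⟩ := h
  exact ⟨fun i x => u i (g x), fun i y => v i (k y), fun x y => huv _ _⟩

theorem FR.mul_row {M : X → Y → ℂ} {n : ℕ} (h : FR M n) (c : X → ℂ) :
    FR (fun x y => c x * M x y) n := by
  obtain ⟨u, v, huv⟩ := h
  refine ⟨fun i x => c x * u i x, v, fun x y => ?_⟩
  simp only [huv, Finset.mul_sum, mul_assoc]

theorem FR.mul_col {M : X → Y → ℂ} {n : ℕ} (h : FR M n) (c : Y → ℂ) :
    FR (fun x y => M x y * c y) n := by
  obtain ⟨u, v, huv⟩ := h
  refine ⟨u, fun i y => v i y * c y, fun x y => ?_⟩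
  simp only [huv, Finset.sum_mul, mul_assoc]

/-- factorisation over an arbitrary finite index type -/
theorem FR.of_fintype {M : X → Y → ℂ} {ι : Type*} [Fintype ι] {n : ℕ} (hn : Fintype.card ι = n)
    (u : ι → X → ℂ) (v : ι → Y → ℂ) (h : ∀ x y, M x y = ∑ i, u i x * v i y) : FR M n := by
  subst hn
  refine ⟨fun i => u ((Fintype.equivFin ι).symm i), fun i => v ((Fintype.equivFin ι).symm i),
    fun x y => ?_⟩
  rw [h]
  exact (Equiv.sum_comp (Fintype.equivFin ι).symm (fun i => u i x * v i y)).symm

theorem FR.mul {M M' : X → Y → ℂ} {n n' : ℕ} (h : FR M n) (h' : FR M' n') :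
    FR (fun x y => M x y * M' x y) (n * n') := by
  obtain ⟨u, v, huv⟩ := h
  obtain ⟨u', v', huv'⟩ := h'
  refine FR.of_fintype (ι := Fin n × Fin n') (by simp)
    (fun p x => u p.1 x * u' p.2 x) (fun p y => v p.1 y * v' p.2 y) (fun x y => ?_)
  rw [huv, huv', Finset.sum_mul_sum, ← Finset.univ_product_univ, Finset.sum_product]
  refine Finset.sum_congr rfl fun i _ => Finset.sum_congr rfl fun j _ => ?_
  ring

theorem FR.sum {ι : Type*} [Fintype ι] {M : ι → X → Y → ℂ} {n : ℕ} (h : ∀ i, FR (M i) n) :
    FR (fun x y => ∑ i, M i x y) (Fintype.card ι * n) := by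
  choose u v huv using h
  refine FR.of_fintype (ι := ι × Fin n) (by simp)
    (fun p x => u p.1 p.2 x) (fun p y => v p.1 p.2 y) (fun x y => ?_)
  rw [← Finset.univ_product_univ, Finset.sum_product]
  exact Finset.sum_congr rfl fun i _ => huv i x y

theorem FR.zero (n : ℕ) : FR (fun (_ : X) (_ : Y) => (0 : ℂ)) n :=
  ⟨fun _ _ => 0, fun _ _ => 0, fun x y => by simp⟩

/-- Linearly independent columns: at most `n` of them. -/
theorem FR.card_le [Fintype Y] {M : X → Y → ℂ} {n : ℕ} (h : FR M n)
    (hli : LinearIndependent ℂ (fun y => fun x => M x y)) : Fintype.card Y ≤ n := by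
  obtain ⟨u, v, huv⟩ := h
  have hmem : ∀ y, (fun x => M x y) ∈ Submodule.span ℂ (Set.range u) := by
    intro y
    have e : (fun x => M x y) = ∑ i, v i y • u i := by
      funext x
      rw [huv, Finset.sum_apply]
      refine Finset.sum_congr rfl fun i _ => ?_
      simp [mul_comm]
    rw [e]
    exact Submodule.sum_mem _ fun i _ => Submodule.smul_mem _ _ (Submodule.subset_span ⟨i, rfl⟩)
  have hle : Submodule.span ℂ (Set.range (fun y => fun x => M x y)) ≤
      Submodule.span ℂ (Set.range u) := by
    rw [Submodule.span_le]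
    rintro _ ⟨y, rfl⟩
    exact hmem y
  have : Module.Finite ℂ (Submodule.span ℂ (Set.range u)) :=
    FiniteDimensional.span_of_finite ℂ (Set.finite_range u)
  calc Fintype.card Y = Module.finrank ℂ (Submodule.span ℂ (Set.range (fun y => fun x => M x y))) :=
        (finrank_span_eq_card hli).symm
    _ ≤ Module.finrank ℂ (Submodule.span ℂ (Set.range u)) := Submodule.finrank_mono hle
    _ ≤ Fintype.card (Fin n) := finrank_range_le_card _
    _ = n := by simp

end FR

section dif
variable {X K : Type*} [AddCommGroup X] [AddCommGroup K]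

/-- Difference of `f` in direction `a`. -/
def dif (a : X) (f : X → K) : X → K := fun x => f (a + x) - f x

theorem dif_sub (a : X) (f g : X → K) : dif a (f - g) = dif a f - dif a g := by
  funext x; simp only [dif, Pi.sub_apply]; abel

theorem dif_comm (a b : X) (f : X → K) : dif a (dif b f) = dif b (dif a f) := by
  funext x
  simp only [dif]
  rw [show b + (a + x) = a + (b + x) by abel]
  abel

theorem dif_zero (a : X) : dif a (0 : X → K) = 0 := by
  funext x; simp [dif]

/-- The periods of `f`. -/
def per (f : X → K) : AddSubgroup X where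
  carrier := {a | dif a f = 0}
  zero_mem' := by
    show dif 0 f = 0
    funext x; simp [dif]
  add_mem' := by
    intro a b ha hb
    have ha' : dif a f = 0 := ha
    have hb' : dif b f = 0 := hb
    show dif (a + b) f = 0
    funext x
    have h1 := congrFun ha' (b + x)
    have h2 := congrFun hb' x
    simp only [dif, Pi.zero_apply] at h1 h2 ⊢
    rw [add_assoc]
    rw [sub_eq_zero] at h1 h2 ⊢
    rw [h1, h2]
  neg_mem' := by
    intro a ha
    have ha' : dif a f = 0 := ha
    show dif (-a) f = 0
    funext x
    have h1 := congrFun ha' (-a + x)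
    simp only [dif, Pi.zero_apply, add_neg_cancel_left] at h1 ⊢
    rw [sub_eq_zero] at h1 ⊢
    exact h1.symm

theorem mem_per {f : X → K} {a : X} : a ∈ per f ↔ dif a f = 0 := Iff.rfl

/-- the directions in which the difference of `f` is constant -/
def per' (f : X → K) : AddSubgroup X where
  carrier := {c | ∀ b, dif b (dif c f) = 0}
  zero_mem' := by
    intro b
    have : dif 0 f = 0 := by funext x; simp [dif]
    rw [this, dif_zero]
  add_mem' := by
    intro a c ha hc b
    have ha' := ha b
    have hc' := hc b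
    have hab : dif a (dif b f) = 0 := by rw [dif_comm]; exact ha'
    have hcb : dif c (dif b f) = 0 := by rw [dif_comm]; exact hc'
    rw [dif_comm]
    exact (per (dif b f)).add_mem (show a ∈ per (dif b f) from hab) hcb
  neg_mem' := by
    intro a ha b
    have hab : dif a (dif b f) = 0 := by rw [dif_comm]; exact ha b
    rw [dif_comm]
    exact (per (dif b f)).neg_mem (show a ∈ per (dif b f) from hab)

theorem mem_per' {f : X → K} {c : X} : c ∈ per' f ↔ ∀ b, dif b (dif c f) = 0 := Iff.rfl

theorem per_le_per' (f : X → K) : per f ≤ per' f := by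
  intro a ha b
  have ha' : dif a f = 0 := ha
  rw [ha', dif_zero]

/-- a function of degree at most one -/
def Aff (f : X → K) : Prop := ∀ b c, dif b (dif c f) = 0

theorem Aff.sub {f g : X → K} (hf : Aff f) (hg : Aff g) : Aff (f - g) := by
  intro b c
  rw [dif_sub, dif_sub, hf, hg, sub_zero]

/-- the homomorphism part of an affine function -/
def Aff.hom {f : X → K} (hf : Aff f) : X →+ K where
  toFun a := f a - f 0
  map_zero' := by simp
  map_add' := by
    intro a b
    have h := congrFun (hf a b) 0
    simp only [dif, Pi.zero_apply, add_zero] at h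
    rw [add_comm a b]
    have h2 : f (b + a) - f a - (f b - f 0) = 0 := h
    have h3 : f (b + a) = f a + (f b - f 0) := by
      rw [sub_sub, sub_eq_zero] at h2; exact h2
    rw [h3]; abel

theorem Aff.eq {f : X → K} (hf : Aff f) (x : X) : f x = hf.hom x + f 0 := by
  simp [Aff.hom]

end dif

end Pool.Agent.Helper63.DP
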