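import Pool.Agent.Helper63.DP.Basic
set_option autoImplicit false

namespace Pool.Agent.Helper63.DP

open Finset

/-- the number of values of a map -/
noncomputable def nv {Y Z : Type*} (g : Y → Z) : ℕ := (Set.range g).ncard

theorem nv_eq {Y Z : Type*} [Fintype Y] [DecidableEq Z] (g : Y → Z) :
    nv g = (univ.image g).card := by
  rw [nv, ← Set.ncard_coe_finset]
  congr 1
  ext z; simp

/-- Cauchy-Schwarz: few values give many coincidences. -/
theorem coincidences {Y Z : Type*} [Fintype Y] [DecidableEq Z] (g : Y → Z) (R : ℕ)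
    (h : (univ.image g).card ≤ R) :
    Fintype.card Y ^ 2 ≤ R * ∑ y : Y, (univ.filter (fun y' => g y' = g y)).card := by
  have h1 : Fintype.card Y = ∑ v ∈ univ.image g, (univ.filter (fun y => g y = v)).card := by
    rw [← Finset.card_univ]
    exact Finset.card_eq_sum_card_image g univ
  have h2 : ∑ y : Y, (univ.filter (fun y' => g y' = g y)).card =
      ∑ v ∈ univ.image g, (univ.filter (fun y => g y = v)).card ^ 2 := by
    rw [← Finset.sum_fiberwise_of_maps_to (s := univ) (t := univ.image g) (g := g)
      (fun y hy => Finset.mem_image_of_mem g hy)]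
    refine Finset.sum_congr rfl fun v _ => ?_
    rw [Finset.sum_congr rfl (g := fun _ => (univ.filter (fun y => g y = v)).card)]
    · rw [Finset.sum_const, smul_eq_mul, sq]
    · intro y hy
      rw [(Finset.mem_filter.1 hy).2]
  rw [h2, h1]
  calc (∑ v ∈ univ.image g, (univ.filter (fun y => g y = v)).card) ^ 2
      ≤ (univ.image g).card * ∑ v ∈ univ.image g, (univ.filter (fun y => g y = v)).card ^ 2 :=
        sq_sum_le_card_mul_sum_sq
    _ ≤ _ := Nat.mul_le_mul_right _ h

section
variable {X K Y : Type*} [AddCommGroup X] [AddCommGroup K] [Fintype X] [Fintype Y]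

open Classical in
theorem card_per (f g : X → K) :
    (univ.filter (fun a => dif a f = dif a g)).card = Nat.card (per (f - g)) := by
  rw [← Fintype.card_subtype, ← Nat.card_eq_fintype_card]
  refine Nat.card_congr (Equiv.subtypeEquivRight fun a => ?_)
  rw [mem_per, dif_sub, sub_eq_zero]

open Classical in
/-- Step A: a centre with many close functions. -/
theorem stepA (f : Y → X → K) (R : ℕ) [Nonempty Y]
    (h : ∀ a, nv (fun y => dif a (f y)) ≤ R) :
    ∃ y0, Fintype.card Y ≤
      2 * R * (univ.filter (fun y => Fintype.card X ≤ 2 * R * Nat.card (per (f y - f y0)))).card := by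
  set N := Fintype.card Y with hN
  have h1 : Fintype.card X * N ^ 2 ≤ R * ∑ y0 : Y, ∑ y : Y, Nat.card (per (f y - f y0)) := by
    calc Fintype.card X * N ^ 2 = ∑ _a : X, N ^ 2 := by simp
      _ ≤ ∑ a : X, R * ∑ y0 : Y, (univ.filter (fun y => dif a (f y) = dif a (f y0))).card :=
        Finset.sum_le_sum fun a _ => coincidences _ R ((nv_eq _).symm.le.trans (h a))
      _ = R * ∑ y0 : Y, ∑ y : Y, Nat.card (per (f y - f y0)) := by
        rw [← Finset.mul_sum, Finset.sum_comm]
        congr 1
        refine Finset.sum_congr rfl fun y0 _ => ?_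
        simp_rw [← card_per, Finset.card_filter]
        rw [Finset.sum_comm]
  have h2 : ∃ y0 ∈ (univ : Finset Y), Fintype.card X * N ≤ R * ∑ y : Y, Nat.card (per (f y - f y0)) := by
    refine Finset.exists_le_of_sum_le Finset.univ_nonempty ?_
    rw [Finset.sum_const, Finset.card_univ, smul_eq_mul, ← Finset.mul_sum, ← hN]
    calc N * (Fintype.card X * N) = Fintype.card X * N ^ 2 := by ring
      _ ≤ _ := h1
  obtain ⟨y0, _, h3⟩ := h2
  refine ⟨y0, ?_⟩
  set B := univ.filter (fun y => Fintype.card X ≤ 2 * R * Nat.card (per (f y - f y0))) with hB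
  have h4 : ∑ y : Y, 2 * R * Nat.card (per (f y - f y0)) ≤
      B.card * (2 * R * Fintype.card X) + N * Fintype.card X := by
    calc ∑ y : Y, 2 * R * Nat.card (per (f y - f y0))
        ≤ ∑ y : Y, ((if y ∈ B then 2 * R * Fintype.card X else 0) + Fintype.card X) := by
          refine Finset.sum_le_sum fun y _ => ?_
          by_cases hy : y ∈ B
          · rw [if_pos hy]
            have : Nat.card (per (f y - f y0)) ≤ Fintype.card X := by
              rw [← Nat.card_eq_fintype_card]
              exact Nat.card_le_card_of_injective _ Subtype.val_injective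
            exact (Nat.mul_le_mul_left _ this).trans (Nat.le_add_right _ _)
          · rw [if_neg hy, zero_add]
            by_contra hlt
            exact hy (by rw [hB, Finset.mem_filter]; exact ⟨Finset.mem_univ _, (not_le.1 hlt).le⟩)
      _ = _ := by
          rw [Finset.sum_add_distrib, Finset.sum_const, Finset.card_univ, smul_eq_mul,
            Finset.sum_ite_mem, Finset.univ_inter, Finset.sum_const, smul_eq_mul]
  have hX : 0 < Fintype.card X := Fintype.card_pos
  rw [← Finset.mul_sum] at h4
  have h5 : Fintype.card X * N ≤ Fintype.card X * (2 * R * B.card) := by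
    have : 2 * (Fintype.card X * N) ≤ B.card * (2 * R * Fintype.card X) + N * Fintype.card X := by
      calc 2 * (Fintype.card X * N) ≤ 2 * (R * ∑ y : Y, Nat.card (per (f y - f y0))) :=
            Nat.mul_le_mul_left _ h3
        _ = 2 * R * ∑ y : Y, Nat.card (per (f y - f y0)) := by ring
        _ ≤ _ := h4
    nlinarith
  exact Nat.le_of_mul_le_mul_left h5 hX

end

section
variable {X K : Type*} [AddCommGroup X] [AddCommGroup K] [Fintype X]

theorem two_mul_card_le {H : AddSubgroup X} (hH : H ≠ ⊤) : 2 * Nat.card H ≤ Fintype.card X := by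
  have h1 := H.card_mul_index
  rw [Nat.card_eq_fintype_card (α := X)] at h1
  have h2 : H.index ≠ 1 := fun h => hH (AddSubgroup.index_eq_one.1 h)
  have h3 : H.index ≠ 0 := AddSubgroup.index_ne_zero_of_finite
  have h4 : 2 ≤ H.index := by omega
  calc 2 * Nat.card H ≤ H.index * Nat.card H := Nat.mul_le_mul_right _ h4
    _ = Fintype.card X := by rw [mul_comm]; exact h1

open Classical in
theorem card_tuples (t : ℕ) (H : AddSubgroup X) :
    (univ.filter (fun a : Fin t → X => ∀ i, a i ∈ H)).card = Nat.card H ^ t := by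
  have : univ.filter (fun a : Fin t → X => ∀ i, a i ∈ H) =
      Fintype.piFinset (fun _ : Fin t => univ.filter (fun x => x ∈ H)) := by
    ext a; simp [Fintype.mem_piFinset]
  rw [this, Fintype.card_piFinset, Finset.prod_const, Finset.card_univ, Fintype.card_fin,
    ← Fintype.card_subtype, Nat.card_eq_fintype_card]

open Classical in
theorem card_tuples_le (t : ℕ) {H : AddSubgroup X} (hH : H ≠ ⊤) :
    2 ^ t * (univ.filter (fun a : Fin t → X => ∀ i, a i ∈ H)).card ≤ Fintype.card X ^ t := by
  rw [card_tuples, ← mul_pow]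
  exact Nat.pow_le_pow_left (two_mul_card_le hH) t

open Classical in
/-- union bound over proper subgroups indexed by a finite set -/
theorem union_bound {ι : Type*} (s : Finset ι) (H : ι → AddSubgroup X) (hH : ∀ i ∈ s, H i ≠ ⊤)
    (t : ℕ) (B : Finset (Fin t → X)) (hB : ∀ a ∈ B, ∃ i ∈ s, ∀ j, a j ∈ H i) :
    2 ^ t * B.card ≤ s.card * Fintype.card X ^ t := by
  have h1 : B ⊆ s.biUnion (fun i => univ.filter (fun a : Fin t → X => ∀ j, a j ∈ H i)) := by
    intro a ha
    obtain ⟨i, hi, h⟩ := hB a ha
    exact Finset.mem_biUnion.2 ⟨i, hi, by simpa using h⟩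
  calc 2 ^ t * B.card ≤ 2 ^ t * ∑ i ∈ s, (univ.filter (fun a : Fin t → X => ∀ j, a j ∈ H i)).card :=
        Nat.mul_le_mul_left _ ((Finset.card_le_card h1).trans Finset.card_biUnion_le)
    _ = ∑ i ∈ s, 2 ^ t * (univ.filter (fun a : Fin t → X => ∀ j, a j ∈ H i)).card := by
        rw [Finset.mul_sum]
    _ ≤ ∑ _i ∈ s, Fintype.card X ^ t := Finset.sum_le_sum fun i hi => card_tuples_le t (hH i hi)
    _ = _ := by rw [Finset.sum_const, smul_eq_mul]

open Classical in
theorem card_difs (Q : X → K) : (univ.image (fun c => dif c Q)).card ≤ (per Q).index := by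
  have hwd : ∀ c c' : X, QuotientAddGroup.leftRel (per Q) c c' → dif c Q = dif c' Q := by
    intro c c' h
    rw [QuotientAddGroup.leftRel_apply, mem_per] at h
    funext x
    have := congrFun h (c + x)
    simp only [dif, Pi.zero_apply] at this ⊢
    rw [sub_eq_zero] at this
    rw [← this]
    congr 2
    abel
  let L : X ⧸ per Q → (X → K) := Quotient.lift (fun c => dif c Q) hwd
  have h1 : univ.image (fun c => dif c Q) ⊆ univ.image L := by
    intro g hg
    obtain ⟨c, _, rfl⟩ := Finset.mem_image.1 hg
    exact Finset.mem_image.2 ⟨QuotientAddGroup.mk c, Finset.mem_univ _, rfl⟩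
  calc (univ.image (fun c => dif c Q)).card ≤ (univ.image L).card := Finset.card_le_card h1
    _ ≤ Fintype.card (X ⧸ per Q) := by rw [← Finset.card_univ]; exact Finset.card_image_le
    _ = (per Q).index := by rw [AddSubgroup.index, Nat.card_eq_fintype_card]

/-- the tuple determines the directions of constant difference -/
def Good1 {t : ℕ} (Q : X → K) (a : Fin t → X) : Prop :=
  ∀ c, (∀ i, dif c (dif (a i) Q) = 0) → c ∈ per' Q

/-- the tuple generates the group modulo the periods -/
def Good2 {t : ℕ} (Q : X → K) (a : Fin t → X) : Prop :=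
  per Q ⊔ AddSubgroup.closure (Set.range a) = ⊤

open Classical in
theorem bad1 (Q : X → K) (t : ℕ) :
    2 ^ t * (univ.filter (fun a : Fin t → X => ¬ Good1 Q a)).card ≤
      (per Q).index * Fintype.card X ^ t := by
  refine (union_bound ((univ.image (fun c => dif c Q)).filter (fun g => per g ≠ ⊤))
    (fun g => per g) (fun g hg => (Finset.mem_filter.1 hg).2) t _ ?_).trans ?_
  · intro a ha
    rw [Finset.mem_filter] at ha
    have h := ha.2
    simp only [Good1, not_forall] at h
    obtain ⟨c, hc, hcp⟩ := h
    refine ⟨dif c Q, ?_, ?_⟩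
    · rw [Finset.mem_filter]
      refine ⟨Finset.mem_image_of_mem _ (Finset.mem_univ _), ?_⟩
      intro htop
      apply hcp
      intro b
      have : b ∈ per (dif c Q) := by rw [htop]; trivial
      exact this
    · intro j
      rw [mem_per, dif_comm]
      exact hc j
  · exact Nat.mul_le_mul_right _ ((Finset.card_le_card (Finset.filter_subset _ _)).trans
      (card_difs Q))

/-- the periods of `Q` together with the kernel of a character of the quotient -/
def kerChar (P : AddSubgroup X) (χ : AddChar (X ⧸ P) ℂ) : AddSubgroup X where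
  carrier := {x | χ (QuotientAddGroup.mk x) = 1}
  zero_mem' := by
    show χ (QuotientAddGroup.mk 0) = 1
    rw [QuotientAddGroup.mk_zero, AddChar.map_zero_eq_one]
  add_mem' := by
    intro a b ha hb
    show χ (QuotientAddGroup.mk (a + b)) = 1
    rw [QuotientAddGroup.mk_add, AddChar.map_add_eq_mul, show χ (QuotientAddGroup.mk a) = 1 from ha,
      show χ (QuotientAddGroup.mk b) = 1 from hb, one_mul]
  neg_mem' := by
    intro a ha
    show χ (QuotientAddGroup.mk (-a)) = 1
    rw [QuotientAddGroup.mk_neg, AddChar.map_neg_eq_inv, show χ (QuotientAddGroup.mk a) = 1 from ha,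
      inv_one]

open Classical in
theorem bad2 (Q : X → K) (t : ℕ) :
    2 ^ t * (univ.filter (fun a : Fin t → X => ¬ Good2 Q a)).card ≤
      (per Q).index * Fintype.card X ^ t := by
  refine (union_bound ((univ : Finset (AddChar (X ⧸ per Q) ℂ)).filter
    (fun χ => kerChar (per Q) χ ≠ ⊤))
    (fun χ => kerChar (per Q) χ) (fun g hg => (Finset.mem_filter.1 hg).2) t _ ?_).trans ?_
  · intro a ha
    rw [Finset.mem_filter] at ha
    have h := ha.2
    unfold Good2 at h
    set H := per Q ⊔ AddSubgroup.closure (Set.range a) with hH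
    obtain ⟨x, hx⟩ : ∃ x, x ∉ H := by
      by_contra hall
      push Not at hall
      exact h (eq_top_iff.2 fun x _ => hall x)
    have hx0 : (QuotientAddGroup.mk x : X ⧸ H) ≠ 0 := by
      rw [Ne, QuotientAddGroup.eq_zero_iff]; exact hx
    obtain ⟨ψ, hψ⟩ := AddChar.exists_apply_ne_zero.2 hx0
    have hle : per Q ≤ H := le_sup_left
    let χ : AddChar (X ⧸ per Q) ℂ := ψ.compAddMonoidHom
      (QuotientAddGroup.map (per Q) H (AddMonoidHom.id X) hle)
    have hχ : ∀ z : X, χ (QuotientAddGroup.mk z) = ψ (QuotientAddGroup.mk z) := fun z => rfl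
    refine ⟨χ, ?_, ?_⟩
    · rw [Finset.mem_filter]
      refine ⟨Finset.mem_univ _, fun htop => hψ ?_⟩
      have hmem : x ∈ kerChar (per Q) χ := by rw [htop]; trivial
      have : χ (QuotientAddGroup.mk x) = 1 := hmem
      rw [← hχ]; exact this
    · intro j
      show χ (QuotientAddGroup.mk (a j)) = 1
      rw [hχ]
      have : a j ∈ H := (le_sup_right : AddSubgroup.closure (Set.range a) ≤ H)
        (AddSubgroup.subset_closure ⟨j, rfl⟩)
      rw [(QuotientAddGroup.eq_zero_iff (a j)).2 this, AddChar.map_zero_eq_one]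
  · refine Nat.mul_le_mul_right _ ((Finset.card_le_card (Finset.filter_subset _ _)).trans ?_)
    rw [Finset.card_univ, AddChar.card_eq, AddSubgroup.index, Nat.card_eq_fintype_card]

open Classical in
/-- at least half of the tuples are good -/
theorem good_half (Q : X → K) (R t : ℕ) (hQ : Fintype.card X ≤ 2 * R * Nat.card (per Q))
    (ht : 8 * R ≤ 2 ^ t) :
    2 * (univ.filter (fun a : Fin t → X => ¬ (Good1 Q a ∧ Good2 Q a))).card ≤
      Fintype.card X ^ t := by
  have hidx : (per Q).index ≤ 2 * R := by
    have h1 := (per Q).card_mul_index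
    rw [Nat.card_eq_fintype_card (α := X)] at h1
    have h2 : 0 < Nat.card (per Q) := Nat.card_pos
    rw [← h1] at hQ
    have h3 : Nat.card (per Q) * (per Q).index ≤ Nat.card (per Q) * (2 * R) := by
      rw [mul_comm (Nat.card (per Q)) (2 * R)]; exact hQ
    exact Nat.le_of_mul_le_mul_left h3 h2
  have hR : 0 < 2 * R := by
    have h3 : (per Q).index ≠ 0 := AddSubgroup.index_ne_zero_of_finite
    omega
  have h1 := bad1 Q t
  have h2 := bad2 Q t
  set B1 := (univ.filter (fun a : Fin t → X => ¬ Good1 Q a)).card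
  set B2 := (univ.filter (fun a : Fin t → X => ¬ Good2 Q a)).card
  have hB : (univ.filter (fun a : Fin t → X => ¬ (Good1 Q a ∧ Good2 Q a))).card ≤ B1 + B2 := by
    refine (Finset.card_le_card ?_).trans (Finset.card_union_le _ _)
    intro a ha
    rw [Finset.mem_filter] at ha
    rw [Finset.mem_union, Finset.mem_filter, Finset.mem_filter]
    by_cases h : Good1 Q a
    · right; exact ⟨Finset.mem_univ _, fun h2 => ha.2 ⟨h, h2⟩⟩
    · left; exact ⟨Finset.mem_univ _, h⟩
  have h3 : 4 * B1 ≤ Fintype.card X ^ t := by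
    have : 2 * R * (4 * B1) ≤ 2 * R * Fintype.card X ^ t := by
      calc 2 * R * (4 * B1) = 8 * R * B1 := by ring
        _ ≤ 2 ^ t * B1 := Nat.mul_le_mul_right _ ht
        _ ≤ (per Q).index * Fintype.card X ^ t := h1
        _ ≤ 2 * R * Fintype.card X ^ t := Nat.mul_le_mul_right _ hidx
    exact Nat.le_of_mul_le_mul_left this hR
  have h4 : 4 * B2 ≤ Fintype.card X ^ t := by
    have : 2 * R * (4 * B2) ≤ 2 * R * Fintype.card X ^ t := by
      calc 2 * R * (4 * B2) = 8 * R * B2 := by ring
        _ ≤ 2 ^ t * B2 := Nat.mul_le_mul_right _ ht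
        _ ≤ (per Q).index * Fintype.card X ^ t := h2
        _ ≤ 2 * R * Fintype.card X ^ t := Nat.mul_le_mul_right _ hidx
    exact Nat.le_of_mul_le_mul_left this hR
  omega

end

end Pool.Agent.Helper63.DP
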