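import Pool.Agent.Helper63.DP.Step
set_option autoImplicit false

namespace Pool.Agent.Helper63.DP

open Finset

section FR
variable {X Y : Type*}

theorem FR.add {M M' : X → Y → ℂ} {n n' : ℕ} (h : FR M n) (h' : FR M' n') :
    FR (fun x y => M x y + M' x y) (n + n') := by
  obtain ⟨u, v, huv⟩ := h
  obtain ⟨u', v', huv'⟩ := h'
  refine FR.of_fintype (ι := Fin n ⊕ Fin n') (by simp)
    (Sum.elim u u') (Sum.elim v v') (fun x y => ?_)
  rw [Fintype.sum_sum_type, huv, huv']
  simp

theorem FR.mono {M : X → Y → ℂ} {n n' : ℕ} (h : FR M n) (hn : n ≤ n') : FR M n' := by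
  obtain ⟨k, rfl⟩ := Nat.exists_eq_add_of_le hn
  refine (h.add (FR.zero k)).congr fun x y => ?_
  simp

/-- a real matrix of rank `r` -/
theorem FR.of_rank {n : ℕ} (M : Matrix (Fin n) (Fin n) ℝ) :
    FR (fun x y => ((M x y : ℝ) : ℂ)) M.rank := by
  set W := LinearMap.range M.mulVecLin with hW
  have hfin : Module.finrank ℝ W = M.rank := rfl
  rw [← hfin]
  let b := Module.finBasis ℝ W
  let col : Fin n → W := fun y => ⟨M.mulVecLin (Pi.single y 1), LinearMap.mem_range_self _ _⟩
  refine ⟨fun i x => (((b i : W) : Fin n → ℝ) x : ℂ), fun i y => ((b.repr (col y) i : ℝ) : ℂ), ?_⟩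
  intro x y
  have h1 : col y = ∑ i, b.repr (col y) i • b i := (b.sum_repr (col y)).symm
  have h2 : ((col y : W) : Fin n → ℝ) x = M x y := by
    show (M.mulVec (Pi.single y 1)) x = M x y
    simp
  have h3 : ((col y : W) : Fin n → ℝ) x = ∑ i, ((b i : W) : Fin n → ℝ) x * b.repr (col y) i := by
    conv_lhs => rw [h1]
    rw [Submodule.coe_sum, Finset.sum_apply]
    refine Finset.sum_congr rfl fun i _ => ?_
    rw [Submodule.coe_smul, Pi.smul_apply, smul_eq_mul, mul_comm]
  show ((M x y : ℝ) : ℂ) = ∑ i, (((b i : W) : Fin n → ℝ) x : ℂ) * ((b.repr (col y) i : ℝ) : ℂ)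
  rw [← h2, h3]
  push_cast
  rfl

end FR

section
variable {X K : Type*} [AddCommGroup X] [AddCommGroup K]

/-- iterated differences -/
def difs : List X → (X → K) → (X → K)
  | [], f => f
  | a :: l, f => difs l (dif a f)

/-- The `D`-th differences of the family are in at most `R` classes modulo affine functions. -/
def Cl {Y : Type*} (D R : ℕ) (f : Y → X → K) : Prop :=
  ∀ l : List X, l.length = D → ∃ H : Fin R → (X → K), ∀ y, ∃ j, Aff (difs l (f y) - H j)

theorem Cl.dif {Y : Type*} {D R : ℕ} {f : Y → X → K} (h : Cl (D + 1) R f) (a : X) :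
    Cl D R (fun y => dif a (f y)) := by
  intro l hl
  exact h (a :: l) (by simp [hl])

end

/-- the bound -/
def bd : ℕ → ℕ → ℕ → ℕ → ℕ
  | 0, m, R, r => R * (m ^ 3 * r)
  | D + 1, m, R, r => 4 * bd D m R (m * (r * r)) *
      bd D m R (m * (r * r)) ^ (Nat.clog 2 (8 * bd D m R (m * (r * r)))) * (m ^ 3 * r)

theorem bd_zero {X Y : Type*} [AddCommGroup X] [Finite X] [Finite Y] {m : ℕ} [NeZero m]
    (f : Y → X → ZMod m) (r R : ℕ) (hr : LR f r) (h : Cl 0 R f) : nv f ≤ R * (m ^ 3 * r) := by
  classical
  cases nonempty_fintype Y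
  cases nonempty_fintype X
  obtain ⟨H, hH⟩ := h [] rfl
  choose j hj using hH
  have hrep : ∀ g : Set.range f, ∃ y, f y = g := fun g => g.2
  choose k hk using hrep
  have h2 : Fintype.card (Set.range f) ≤ (m ^ 3 * r) *
      ((univ : Finset (Set.range f)).image (fun g => j (k g))).card := by
    rw [← Finset.card_univ]
    refine Finset.card_le_mul_card_image univ _ ?_
    intro i _
    have h5 : Fintype.card {g // g ∈ (univ : Finset (Set.range f)).filter (fun g => j (k g) = i)} ≤
        m ^ 3 * r := by
      refine card_aff (f := fun g : {g // g ∈ (univ : Finset (Set.range f)).filter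
        (fun g => j (k g) = i)} => f (k g)) ?_ ?_ ?_
      · exact hr.comp _
      · intro g g' hgg
        have hgg' : f (k g) = f (k g') := hgg
        rw [hk, hk] at hgg'
        exact Subtype.ext (Subtype.ext hgg')
      · intro g g'
        have e1 := (Finset.mem_filter.1 g.2).2
        have e2 := (Finset.mem_filter.1 g'.2).2
        have a1 := hj (k g)
        have a2 := hj (k g')
        rw [e1] at a1
        rw [e2] at a2
        have a3 := Aff.sub a1 a2
        have e : difs [] (f (k g)) - H i - (difs [] (f (k g')) - H i) = f (k g) - f (k g') := by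
          show f (k g) - H i - (f (k g') - H i) = f (k g) - f (k g')
          abel
        rw [e] at a3
        exact a3
    rwa [Fintype.card_coe] at h5
  have h3 : ((univ : Finset (Set.range f)).image (fun g => j (k g))).card ≤ R := by
    calc _ ≤ (univ : Finset (Fin R)).card := Finset.card_le_card (Finset.subset_univ _)
      _ = R := by simp
  rw [nv, Set.ncard_eq_toFinset_card', Set.toFinset_card]
  calc Fintype.card (Set.range f) ≤ (m ^ 3 * r) * R := h2.trans (Nat.mul_le_mul_left _ h3)
    _ = R * (m ^ 3 * r) := mul_comm _ _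

/-- Main theorem on families of functions. -/
theorem nv_le_bd (D : ℕ) : ∀ {X Y : Type} [AddCommGroup X] [Finite X] [Finite Y] {m : ℕ} [NeZero m]
    (f : Y → X → ZMod m) (r R : ℕ), LR f r → Cl D R f → nv f ≤ bd D m R r := by
  induction D with
  | zero => intro X Y _ _ _ m _ f r R hr h; exact bd_zero f r R hr h
  | succ D ih =>
    intro X Y _ _ _ m _ f r R hr h
    cases nonempty_fintype X
    refine step f r (bd D m R (m * (r * r))) _ hr (fun a => ?_) (Nat.le_pow_clog (by norm_num) _)
    exact ih (fun y => dif a (f y)) _ R (hr.dif a) (h.dif a)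

end Pool.Agent.Helper63.DP
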