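import Pool.Agent.Helper63.DP.Main
set_option autoImplicit false

namespace Pool.Agent.Helper63.DP

theorem bd_pos (D : ℕ) : ∀ {m R r : ℕ}, 0 < m → 0 < R → 0 < r → 0 < bd D m R r := by
  induction D with
  | zero => intro m R r hm hR hr; unfold bd; positivity
  | succ D ih =>
    intro m R r hm hR hr
    have h := ih hm hR (Nat.mul_pos hm (Nat.mul_pos hr hr))
    unfold bd
    positivity

theorem clog_le {x : ℕ} (hx : 0 < x) :
    (Nat.clog 2 x : ℝ) ≤ Real.log x / Real.log 2 + 1 := by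
  have hl2 : 0 < Real.log 2 := Real.log_pos (by norm_num)
  have hx1 : (1 : ℝ) ≤ x := by exact_mod_cast hx
  rcases Nat.eq_zero_or_pos (Nat.clog 2 x) with h | h
  · rw [h]
    have : 0 ≤ Real.log x := Real.log_nonneg hx1
    have : 0 ≤ Real.log x / Real.log 2 := by positivity
    push_cast
    linarith
  · have h1 : 2 ^ (Nat.clog 2 x - 1) < x := by
      by_contra hcon
      have h2 : Nat.clog 2 x ≤ Nat.clog 2 x - 1 := by
        rw [Nat.clog_le_iff_le_pow (by norm_num)]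
        exact not_lt.1 hcon
      omega
    have h2 : ((2 : ℝ) ^ (Nat.clog 2 x - 1)) ≤ x := by exact_mod_cast h1.le
    have h3 : ((Nat.clog 2 x - 1 : ℕ) : ℝ) * Real.log 2 ≤ Real.log x := by
      rw [← Real.log_pow]
      exact Real.log_le_log (by positivity) h2
    rw [Nat.cast_sub h] at h3
    push_cast at h3
    have h4 : (Nat.clog 2 x : ℝ) - 1 ≤ Real.log x / Real.log 2 := by
      rw [le_div_iff₀ hl2]; exact h3
    linarith

/-- numerical bound -/
theorem log_bd (D : ℕ) : ∃ c : ℝ, 1 ≤ c ∧ ∀ {m R r : ℕ}, 2 ≤ m → 1 ≤ R → 1 ≤ r →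
    Real.log (bd D m R r) ≤ c * (Real.log (m * R * r) / Real.log 2) ^ (2 ^ D) := by
  have hl2 : 0 < Real.log 2 := Real.log_pos (by norm_num)
  have hl2' : Real.log 2 < 0.6931471808 := Real.log_two_lt_d9
  have hl2'' : 0.6931471803 < Real.log 2 := Real.log_two_gt_d9
  have hA : ∀ {m R r : ℕ}, 2 ≤ m → 1 ≤ R → 1 ≤ r → 1 ≤ Real.log (m * R * r) / Real.log 2 := by
    intro m R r hm hR hr
    rw [le_div_iff₀ hl2, one_mul]
    refine Real.log_le_log (by norm_num) ?_
    have hm' : (2 : ℝ) ≤ m := by exact_mod_cast hm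
    have hR' : (1 : ℝ) ≤ R := by exact_mod_cast hR
    have hr' : (1 : ℝ) ≤ r := by exact_mod_cast hr
    calc (2 : ℝ) = 2 * 1 * 1 := by norm_num
      _ ≤ m * R * r := by gcongr
  have hcube : ∀ {m R r : ℕ}, 2 ≤ m → 1 ≤ R → 1 ≤ r →
      Real.log ((m : ℝ) ^ 3 * r) ≤ 3 * Real.log (m * R * r) := by
    intro m R r hm hR hr
    have hm' : (2 : ℝ) ≤ m := by exact_mod_cast hm
    have hR' : (1 : ℝ) ≤ R := by exact_mod_cast hR
    have hr' : (1 : ℝ) ≤ r := by exact_mod_cast hr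
    have e3 : 3 * Real.log ((m : ℝ) * R * r) = Real.log (((m : ℝ) * R * r) ^ 3) := by
      rw [Real.log_pow]; norm_num
    rw [e3]
    refine Real.log_le_log (by positivity) ?_
    calc (m : ℝ) ^ 3 * r = (m : ℝ) ^ 3 * 1 ^ 3 * (r * 1 ^ 2) := by ring
      _ ≤ (m : ℝ) ^ 3 * (R : ℝ) ^ 3 * (r * (r : ℝ) ^ 2) := by gcongr
      _ = ((m : ℝ) * R * r) ^ 3 := by ring
  induction D with
  | zero =>
    refine ⟨3, by norm_num, ?_⟩
    intro m R r hm hR hr
    have hm' : (2 : ℝ) ≤ m := by exact_mod_cast hm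
    have hR' : (1 : ℝ) ≤ R := by exact_mod_cast hR
    have hr' : (1 : ℝ) ≤ r := by exact_mod_cast hr
    have e : ((bd 0 m R r : ℕ) : ℝ) = R * (m ^ 3 * r) := by unfold bd; push_cast; ring
    rw [e, pow_zero, pow_one]
    have h0 : Real.log ((R : ℝ) * (m ^ 3 * r)) ≤ 3 * Real.log (m * R * r) := by
      have e3 : 3 * Real.log ((m : ℝ) * R * r) = Real.log (((m : ℝ) * R * r) ^ 3) := by
        rw [Real.log_pow]; norm_num
      rw [e3]
      refine Real.log_le_log (by positivity) ?_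
      calc (R : ℝ) * ((m : ℝ) ^ 3 * r) = (m : ℝ) ^ 3 * (R * 1 ^ 2) * (r * 1 ^ 2) := by ring
        _ ≤ (m : ℝ) ^ 3 * (R * (R : ℝ) ^ 2) * (r * (r : ℝ) ^ 2) := by gcongr
        _ = ((m : ℝ) * R * r) ^ 3 := by ring
    have hAA := hA hm hR hr
    have h1 : 0 ≤ Real.log (m * R * r) := by
      have := mul_le_mul_of_nonneg_right hAA hl2.le
      rw [one_mul, div_mul_cancel₀ _ hl2.ne'] at this
      linarith
    have h2 : Real.log (m * R * r) ≤ Real.log (m * R * r) / Real.log 2 := by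
      rw [le_div_iff₀ hl2]
      nlinarith
    linarith
  | succ D ih =>
    obtain ⟨c, hc, ih⟩ := ih
    refine ⟨12 * (c * 2 ^ (2 ^ D)) ^ 2, ?_, ?_⟩
    · have : (1 : ℝ) ≤ 2 ^ (2 ^ D) := one_le_pow₀ (by norm_num)
      have : (1 : ℝ) ≤ c * 2 ^ (2 ^ D) := by nlinarith
      nlinarith
    intro m R r hm hR hr
    have hm' : (2 : ℝ) ≤ m := by exact_mod_cast hm
    have hR' : (1 : ℝ) ≤ R := by exact_mod_cast hR
    have hr' : (1 : ℝ) ≤ r := by exact_mod_cast hr
    have hr2 : 1 ≤ m * (r * r) := Nat.succ_le_of_lt (by positivity)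
    have h1 := ih hm hR hr2
    set R1 := bd D m R (m * (r * r)) with hR1
    have hR1pos : 0 < R1 := bd_pos D (by omega) (by omega) (by omega)
    have hR1' : (1 : ℝ) ≤ R1 := by exact_mod_cast hR1pos
    set a := Real.log (m * R * r) / Real.log 2 with ha
    have ha1 : 1 ≤ a := hA hm hR hr
    set v := Real.log R1 with hv
    have hv0 : 0 ≤ v := Real.log_nonneg hR1'
    -- v ≤ V
    have h2 : Real.log ((m : ℝ) * R * ((m * (r * r) : ℕ) : ℝ)) / Real.log 2 ≤ 2 * a := by
      rw [ha, ← mul_div_assoc]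
      refine div_le_div_of_nonneg_right ?_ hl2.le
      rw [← Nat.cast_ofNat (n := 2), ← Real.log_pow]
      refine Real.log_le_log (by positivity) ?_
      push_cast
      calc (m : ℝ) * R * (m * (r * r)) = (m : ℝ) ^ 2 * (R * 1) * (r : ℝ) ^ 2 := by ring
        _ ≤ (m : ℝ) ^ 2 * (R * R) * (r : ℝ) ^ 2 := by gcongr
        _ = ((m : ℝ) * R * r) ^ 2 := by ring
    set V := c * 2 ^ (2 ^ D) * a ^ (2 ^ D) with hV
    have hvV : v ≤ V := by
      refine h1.trans ?_
      have h3 : 0 ≤ Real.log ((m : ℝ) * R * ((m * (r * r) : ℕ) : ℝ)) / Real.log 2 := by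
        have := hA hm hR hr2
        linarith
      calc c * (Real.log ((m : ℝ) * R * ((m * (r * r) : ℕ) : ℝ)) / Real.log 2) ^ (2 ^ D)
          ≤ c * (2 * a) ^ (2 ^ D) := by gcongr
        _ = V := by rw [hV, mul_pow]; ring
    have hVa : a ≤ V := by
      have e1 : a ≤ a ^ (2 ^ D) := le_self_pow₀ ha1 (by positivity)
      have e2 : (1 : ℝ) ≤ c * 2 ^ (2 ^ D) := by
        have : (1 : ℝ) ≤ 2 ^ (2 ^ D) := one_le_pow₀ (by norm_num)
        nlinarith
      calc a ≤ a ^ (2 ^ D) := e1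
        _ = 1 * a ^ (2 ^ D) := (one_mul _).symm
        _ ≤ V := by rw [hV]; gcongr
    have hV1 : 1 ≤ V := ha1.trans hVa
    -- the main estimate
    have e : ((bd (D + 1) m R r : ℕ) : ℝ) =
        4 * R1 * (R1 : ℝ) ^ (Nat.clog 2 (8 * R1)) * ((m : ℝ) ^ 3 * r) := by
      rw [show bd (D + 1) m R r = 4 * R1 * R1 ^ (Nat.clog 2 (8 * R1)) * (m ^ 3 * r) from rfl]
      push_cast; ring
    have hclog : (Nat.clog 2 (8 * R1) : ℝ) ≤ 4 + 2 * v := by
      have h3 := clog_le (x := 8 * R1) (by omega)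
      have h4 : Real.log ((8 * R1 : ℕ) : ℝ) = 3 * Real.log 2 + v := by
        push_cast
        rw [Real.log_mul (by norm_num) (by positivity), show (8 : ℝ) = 2 ^ 3 by norm_num,
          Real.log_pow]
        push_cast; ring
      rw [h4, add_div, mul_div_assoc, div_self hl2.ne'] at h3
      have h5 : v / Real.log 2 ≤ 2 * v := by
        rw [div_le_iff₀ hl2]
        nlinarith
      linarith
    rw [e, Real.log_mul (by positivity) (by positivity), Real.log_mul (by positivity)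
      (by positivity), Real.log_mul (by norm_num) (by positivity), Real.log_pow]
    have h6 := hcube hm hR hr
    have h7 : Real.log (m * R * r) = a * Real.log 2 := by
      rw [ha, div_mul_cancel₀ _ hl2.ne']
    have h8 : Real.log 4 ≤ 2 := by
      rw [show (4 : ℝ) = 2 ^ 2 by norm_num, Real.log_pow]
      push_cast
      linarith
    have h9 : (Nat.clog 2 (8 * R1) : ℝ) * v ≤ (4 + 2 * V) * V := by
      have : (Nat.clog 2 (8 * R1) : ℝ) ≤ 4 + 2 * V := by linarith
      gcongr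
    have h10 : Real.log (m * R * r) ≤ V := by
      rw [h7]; nlinarith
    have hfin : Real.log 4 + v + (Nat.clog 2 (8 * R1) : ℝ) * v + Real.log ((m : ℝ) ^ 3 * r) ≤
        12 * V ^ 2 := by
      nlinarith
    refine hfin.trans (le_of_eq ?_)
    rw [hV, pow_succ 2 D, pow_mul a, mul_pow]
    ring

end Pool.Agent.Helper63.DP
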