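import Pool.Agent.Helper63.DP.Basic
set_option autoImplicit false

namespace Pool.Agent.Helper63.DP

open Finset

variable {X : Type*} [AddCommGroup X] {Y Y' : Type*} {m : ℕ}

/-- all level-set matrices of the family have rank at most `r` -/
def LR (f : Y → X → ZMod m) (r : ℕ) : Prop :=
  ∀ c : ZMod m, FR (fun x y => if f y x = c then (1 : ℂ) else 0) r

omit [AddCommGroup X] in
theorem LR.comp {f : Y → X → ZMod m} {r : ℕ} (h : LR f r) (k : Y' → Y) :
    LR (fun y => f (k y)) r := fun c => (h c).comp id k

theorem ind_sub [NeZero m] (s t c : ZMod m) :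
    (if s - t = c then (1 : ℂ) else 0) =
      ∑ u : ZMod m, (if s = u + c then (1 : ℂ) else 0) * (if t = u then (1 : ℂ) else 0) := by
  rw [Finset.sum_eq_single t]
  · simp only [if_true, mul_one]
    congr 1
    rw [sub_eq_iff_eq_add, add_comm]
  · intro u _ hu
    rw [if_neg (fun h : t = u => hu h.symm), mul_zero]
  · intro h; exact absurd (Finset.mem_univ _) h

theorem LR.dif [NeZero m] {f : Y → X → ZMod m} {r : ℕ} (h : LR f r) (a : X) :
    LR (fun y => dif a (f y)) (m * (r * r)) := by
  intro c
  have h1 : ∀ u : ZMod m, FR (fun x y => (if f y (a + x) = u + c then (1 : ℂ) else 0) *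
      (if f y x = u then (1 : ℂ) else 0)) (r * r) := fun u =>
    ((h (u + c)).comp (fun x => a + x) id).mul (h u)
  have h2 := FR.sum h1
  rw [ZMod.card] at h2
  refine h2.congr fun x y => ?_
  exact ind_sub _ _ _

omit [AddCommGroup X] in
/-- subtracting a fixed function -/
theorem LR.sub [NeZero m] {f : Y → X → ZMod m} {r : ℕ} (h : LR f r) (g : X → ZMod m) :
    LR (fun y => f y - g) (m * r) := by
  intro c
  have h1 : ∀ u : ZMod m, FR (fun x y => (if g x = u then (1 : ℂ) else 0) *
      (if f y x = u + c then (1 : ℂ) else 0)) r := fun u => (h (u + c)).mul_row _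
  have h2 := FR.sum h1
  rw [ZMod.card] at h2
  refine h2.congr fun x y => ?_
  show (if f y x - g x = c then (1 : ℂ) else 0) = _
  rw [ind_sub]
  exact Finset.sum_congr rfl fun u _ => mul_comm _ _

omit [AddCommGroup X] in
/-- the rank of the matrix of character values -/
theorem LR.char [NeZero m] {f : Y → X → ZMod m} {r : ℕ} (h : LR f r) :
    FR (fun x y => ZMod.stdAddChar (f y x)) (m * r) := by
  have h1 : ∀ c : ZMod m, FR (fun x y => (ZMod.stdAddChar c : ℂ) *
      (if f y x = c then (1 : ℂ) else 0)) r := fun c => (h c).mul_row _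
  have h2 := FR.sum h1
  rw [ZMod.card] at h2
  refine h2.congr fun x y => ?_
  rw [Finset.sum_eq_single (f y x)]
  · simp
  · intro u _ hu
    rw [if_neg (fun h => hu h.symm), mul_zero]
  · intro h; exact absurd (Finset.mem_univ _) h

/-- An injective family with pairwise affine differences has at most `m³ r` members. -/
theorem card_aff [NeZero m] [Finite X] [Fintype Y] {f : Y → X → ZMod m} {r : ℕ} (h : LR f r)
    (hinj : Function.Injective f) (haff : ∀ y y', Aff (f y - f y')) :
    Fintype.card Y ≤ m ^ 3 * r := by
  classical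
  rcases isEmpty_or_nonempty Y with hY | ⟨⟨y1⟩⟩
  · simp [Fintype.card_eq_zero]
  -- the homomorphisms
  let hom : Y → (X →+ ZMod m) := fun y => (haff y y1).hom
  let S : Finset (X →+ ZMod m) := Finset.univ.image hom
  have hS : S.card ≤ m ^ 2 * r := by
    -- choose a representative for every homomorphism
    have hrep : ∀ g : S, ∃ y, hom y = g := by
      intro g
      obtain ⟨y, _, hy⟩ := Finset.mem_image.1 g.2
      exact ⟨y, hy⟩
    choose rep hrep using hrep
    have h1 : FR (fun x y => ZMod.stdAddChar ((f y - f y1) x)) (m * (m * r)) := (h.sub (f y1)).char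
    have h2 := h1.mul_col (fun y => (ZMod.stdAddChar ((f y - f y1) 0) : ℂ)⁻¹)
    have h3 := h2.comp (id : X → X) rep
    have h4 : FR (fun (x : X) (g : S) => (ZMod.stdAddChar.compAddMonoidHom (g : X →+ ZMod m) : AddChar X ℂ) x)
        (m * (m * r)) := by
      refine h3.congr fun x g => ?_
      simp only [id]
      have e : (f (rep g) - f y1) x = (g : X →+ ZMod m) x + (f (rep g) - f y1) 0 := by
        have := (haff (rep g) y1).eq x
        rw [this]
        congr 1
        exact DFunLike.congr_fun (hrep g) x
      rw [e, AddChar.map_add_eq_mul, mul_assoc, mul_inv_cancel₀, mul_one]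
      · rfl
      · intro h0
        have := AddChar.map_add_eq_mul (ZMod.stdAddChar : AddChar (ZMod m) ℂ)
          ((f (rep g) - f y1) 0) (-((f (rep g) - f y1) 0))
        rw [add_neg_cancel, AddChar.map_zero_eq_one, h0, zero_mul] at this
        exact one_ne_zero this
    have hli : LinearIndependent ℂ (fun (g : S) => fun (x : X) =>
        (ZMod.stdAddChar.compAddMonoidHom (g : X →+ ZMod m) : AddChar X ℂ) x) := by
      have h5 := AddChar.linearIndependent X ℂ
      refine h5.comp (fun g : S => (ZMod.stdAddChar.compAddMonoidHom (g : X →+ ZMod m) : AddChar X ℂ)) ?_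
      intro g g' hgg
      apply Subtype.ext
      ext x
      have := DFunLike.congr_fun hgg x
      simp only [AddChar.compAddMonoidHom_apply] at this
      exact ZMod.injective_stdAddChar this
    have h6 := h4.card_le hli
    rw [Fintype.card_coe] at h6
    calc S.card ≤ m * (m * r) := h6
      _ = m ^ 2 * r := by ring
  -- now the constants
  have h7 : Fintype.card Y ≤ (S ×ˢ (Finset.univ : Finset (ZMod m))).card := by
    rw [← Finset.card_univ]
    refine Finset.card_le_card_of_injOn (fun y => (hom y, (f y - f y1) 0)) ?_ ?_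
    · intro y _
      simp [S]
    · intro y _ y' _ hyy
      simp only [Prod.mk.injEq] at hyy
      apply hinj
      funext x
      have e1 := (haff y y1).eq x
      have e2 := (haff y' y1).eq x
      have e3 : (haff y y1).hom x = (haff y' y1).hom x := DFunLike.congr_fun hyy.1 x
      rw [e3, hyy.2, ← e2] at e1
      simpa using e1
  rw [Finset.card_product, Finset.card_univ, ZMod.card] at h7
  calc Fintype.card Y ≤ S.card * m := h7
    _ ≤ m ^ 2 * r * m := Nat.mul_le_mul_right _ hS
    _ = m ^ 3 * r := by ring

end Pool.Agent.Helper63.DP
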