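import Pool.Agent.Helper63.DP.Rank
import Pool.Agent.Helper63.DP.Count
set_option autoImplicit false

namespace Pool.Agent.Helper63.DP

open Finset

section
variable {X K : Type*} [AddCommGroup X] [AddCommGroup K]

/-- Two good functions with the same tuple of differences differ by an affine function. -/
theorem aff_of_same {t : ℕ} {Q Q' : X → K} {a : Fin t → X} (h2 : Good2 Q a)
    (h1' : Good1 Q' a) (h : ∀ i, dif (a i) Q = dif (a i) Q') : Aff (Q - Q') := by
  have htop : per' (Q - Q') = ⊤ := by
    rw [eq_top_iff, ← h2, sup_le_iff]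
    constructor
    · intro c hc
      have hcQ : dif c Q = 0 := hc
      have hcQ' : c ∈ per' Q' := by
        apply h1'
        intro i
        rw [← h i, dif_comm, hcQ, dif_zero]
      intro b
      rw [dif_sub, dif_sub, hcQ, dif_zero, hcQ' b, sub_zero]
    · rw [AddSubgroup.closure_le]
      rintro _ ⟨i, rfl⟩
      intro b
      show dif b (dif (a i) (Q - Q')) = 0
      rw [dif_sub, h i, sub_self, dif_zero]
  intro b c
  have : c ∈ per' (Q - Q') := by rw [htop]; trivial
  exact this b

end

open Classical in
/-- The derivative principle for injective families. -/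
theorem step_inj {X Y : Type*} [AddCommGroup X] [Fintype X] [Fintype Y] {m : ℕ} [NeZero m]
    (f : Y → X → ZMod m) (hinj : Function.Injective f) (r R t : ℕ) (hr : LR f r)
    (h : ∀ a, nv (fun y => dif a (f y)) ≤ R) (ht : 8 * R ≤ 2 ^ t) :
    Fintype.card Y ≤ 4 * R * R ^ t * (m ^ 3 * r) := by
  rcases isEmpty_or_nonempty Y with hY | hY
  · simp [Fintype.card_eq_zero]
  obtain ⟨y0, hy0⟩ := stepA f R h
  set B := univ.filter (fun y => Fintype.card X ≤ 2 * R * Nat.card (per (f y - f y0))) with hB
  -- averaging over the tuples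
  have h1 : ∃ a ∈ (univ : Finset (Fin t → X)),
      2 * (B.filter (fun y => ¬ (Good1 (f y - f y0) a ∧ Good2 (f y - f y0) a))).card ≤ B.card := by
    refine Finset.exists_le_of_sum_le Finset.univ_nonempty ?_
    rw [Finset.sum_const, Finset.card_univ, smul_eq_mul, ← Finset.mul_sum]
    have e : ∑ a : Fin t → X,
        (B.filter (fun y => ¬ (Good1 (f y - f y0) a ∧ Good2 (f y - f y0) a))).card =
        ∑ y ∈ B, (univ.filter (fun a : Fin t → X =>
          ¬ (Good1 (f y - f y0) a ∧ Good2 (f y - f y0) a))).card := by
      simp_rw [Finset.card_filter]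
      rw [Finset.sum_comm]
    rw [e, Finset.mul_sum]
    calc ∑ y ∈ B, 2 * (univ.filter (fun a : Fin t → X =>
          ¬ (Good1 (f y - f y0) a ∧ Good2 (f y - f y0) a))).card
        ≤ ∑ _y ∈ B, Fintype.card X ^ t := by
          refine Finset.sum_le_sum fun y hy => ?_
          exact good_half _ R t (Finset.mem_filter.1 hy).2 ht
      _ = Fintype.card (Fin t → X) * B.card := by
          rw [Finset.sum_const, smul_eq_mul, Fintype.card_fun, Fintype.card_fin, mul_comm]
  obtain ⟨a, _, ha⟩ := h1
  set Gd := B.filter (fun y => Good1 (f y - f y0) a ∧ Good2 (f y - f y0) a) with hGd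
  have h2 : B.card ≤ 2 * Gd.card := by
    have h3 := Finset.card_filter_add_card_filter_not (s := B)
      (fun y => Good1 (f y - f y0) a ∧ Good2 (f y - f y0) a)
    have h4 : Gd.card = (B.filter (fun y => Good1 (f y - f y0) a ∧ Good2 (f y - f y0) a)).card := by
      rw [hGd]
    have h5 : (B.filter (fun y => Good1 (f y - f y0) a ∧ Good2 (f y - f y0) a)).card +
      (B.filter (fun y => ¬ (Good1 (f y - f y0) a ∧ Good2 (f y - f y0) a))).card = B.card := by
      convert h3
    omega
  -- the tuple map
  let τ : Y → (Fin t → (X → ZMod m)) := fun y i => dif (a i) (f y)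
  have h3 : (Gd.image τ).card ≤ R ^ t := by
    have hsub : Gd.image τ ⊆ Fintype.piFinset (fun i => univ.image (fun y => dif (a i) (f y))) := by
      intro v hv
      obtain ⟨y, _, rfl⟩ := Finset.mem_image.1 hv
      rw [Fintype.mem_piFinset]
      intro i
      exact Finset.mem_image_of_mem _ (Finset.mem_univ _)
    calc (Gd.image τ).card ≤ _ := Finset.card_le_card hsub
      _ = ∏ i : Fin t, (univ.image (fun y => dif (a i) (f y))).card := Fintype.card_piFinset _
      _ ≤ ∏ _i : Fin t, R := Finset.prod_le_prod' fun i _ => (nv_eq _).symm.le.trans (h (a i))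
      _ = R ^ t := by simp
  have h4 : Gd.card ≤ (m ^ 3 * r) * (Gd.image τ).card := by
    refine Finset.card_le_mul_card_image Gd _ ?_
    intro v _
    have h5 : Fintype.card {y // y ∈ Gd.filter (fun y => τ y = v)} ≤ m ^ 3 * r := by
      refine card_aff (f := fun y : {y // y ∈ Gd.filter (fun y => τ y = v)} => f y) ?_ ?_ ?_
      · exact hr.comp _
      · intro y y' hyy
        exact Subtype.ext (hinj hyy)
      · intro y y'
        obtain ⟨hy, hyv⟩ := Finset.mem_filter.1 y.2
        obtain ⟨hy', hyv'⟩ := Finset.mem_filter.1 y'.2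
        have hg := (Finset.mem_filter.1 hy).2
        have hg' := (Finset.mem_filter.1 hy').2
        have h6 := aff_of_same hg.2 hg'.1 (fun i => by
          rw [dif_sub, dif_sub]
          have : dif (a i) (f y) = dif (a i) (f y') := congrFun (hyv.trans hyv'.symm) i
          rw [this])
        have e : f y - f y0 - (f y' - f y0) = f y - f y' := by abel
        rw [e] at h6
        exact h6
    rwa [Fintype.card_coe] at h5
  calc Fintype.card Y ≤ 2 * R * B.card := hy0
    _ ≤ 2 * R * (2 * Gd.card) := Nat.mul_le_mul_left _ h2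
    _ ≤ 2 * R * (2 * ((m ^ 3 * r) * R ^ t)) :=
        Nat.mul_le_mul_left _ (Nat.mul_le_mul_left _ (h4.trans (Nat.mul_le_mul_left _ h3)))
    _ = 4 * R * R ^ t * (m ^ 3 * r) := by ring

/-- The derivative principle: if for every direction `a` the differences `dif a (f y)` are at most
`R` different functions, then there are at most `4 R ^ (t + 1) m ^ 3 r` different `f y`. -/
theorem step {X Y : Type*} [AddCommGroup X] [Fintype X] [Finite Y] {m : ℕ} [NeZero m]
    (f : Y → X → ZMod m) (r R t : ℕ) (hr : LR f r)
    (h : ∀ a, nv (fun y => dif a (f y)) ≤ R) (ht : 8 * R ≤ 2 ^ t) :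
    nv f ≤ 4 * R * R ^ t * (m ^ 3 * r) := by
  classical
  cases nonempty_fintype Y
  -- choose representatives
  have hrep : ∀ g : Set.range f, ∃ y, f y = g := fun g => g.2
  choose k hk using hrep
  have h1 := step_inj (Y := Set.range f) (fun g => f (k g)) ?_ r R t (hr.comp k) ?_ ht
  · rw [nv, Set.ncard_eq_toFinset_card', Set.toFinset_card]
    exact h1
  · intro g g' hgg
    have : f (k g) = f (k g') := hgg
    rw [hk, hk] at this
    exact Subtype.ext this
  · intro a
    refine le_trans ?_ (h a)
    unfold nv
    refine Set.ncard_le_ncard ?_ (Set.finite_range _)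
    rintro _ ⟨g, rfl⟩
    exact ⟨k g, rfl⟩

end Pool.Agent.Helper63.DP
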